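import Pool.Agent.Y516.OJ.Final

/-!
# Set intersection queries: quadratic space, if only one of the cells read depends on both halves

A family of `2 k` subsets of a universe with `u` elements, of total size at most `N`, is
preprocessed; it is given as two halves of `k` sets. The memory has `s` cells of `w` bits, which may
be *arbitrary* functions of the whole family, and in addition an unlimited memory with arbitrary
functions of the first half alone and of the second half alone. On a query `(i, j)` (do the set `i` of
the first half and the set `j` of the second half intersect? This is the least that a structure which
lists the intersection has to find out) one of the `s` joint cells is read; its address may be an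
*arbitrary* function of `i`, `j`, the first half and public random bits. Then the query is answered by
an arbitrary communication protocol of at most `b` bits between the two halves; for instance, `T`
adaptive probes of cells of the one-sided memory are such a protocol with `b = w T`. If the error
probability is at most `1 / (2 * 10 ^ 6)`, then, for suitable `k` and `u`,

  `N ^ 2 ≤ 10 ^ 20 * (b + l) ^ 2 * w ^ 3 * s`, where `l = ⌈2 log₂ N⌉`,

and `l = 0` suffices if the address is a function of `i`, `j` and the random bits only. So a
polylogarithmic query time needs space `Ω~(N ^ 2)` in this model, and query time `T` needs space
`Ω~((N / T) ^ 2)`. (For the number `k` of sets which is used here, a structure which stores the answers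
for all `(i, j)` such that the set `i` has more than `T` elements has this size up to logarithms.)

The starting result TwoDimensionalTable has this bound for joint tables with a row which is a function
of `i` and the first half and a column which is a function of `j` and the second half. Here the address
may depend on both indices and on one half in any way, so the cells which are read for different `j` need
not be related to each other; the proof is the direct product theorem for disjointness on overlapping
pairs of `Pool.Agent.Y516.OJ`, for arbitrary bipartite graphs of pairs instead of stars: for given
first half nearly all pairs `(i, j)` can be put into groups of `m = 4000 w` pairs which read the same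
cell, unless `k ^ 2 ≤ 40000 w s`, and the content of the cell is guessed.
-/

set_option autoImplicit false

namespace Pool.Agent.Results.MP_f326ae_lc.AdaptiveJointProbe

open Pool.Agent.Y516.OJ

/-- For all `N`, `w`, `b`, `l` there are `k` and `u ≤ 2 * 10 ^ 14 * (b + l) ^ 2 * w ^ 2` such that every
random data structure with `s` joint cells of `w` bits, one joint probe (the address is a function of
the query and of the first half) and protocols of `b` bits, which decides emptiness of the
intersections for families of `2 k` subsets of a universe with `u` elements, of total size at most
`N`, satisfies `N ^ 2 ≤ 10 ^ 20 * (b + l) ^ 2 * w ^ 3 * s`, if `N ^ 2 ≤ 2 ^ l` or if the addresses do not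
depend on the family. -/
theorem result (N w b l : ℕ) (hw : 1 ≤ w) (hb : 1 ≤ b) :
    ∃ k u : ℕ, u ≤ 2 * 10 ^ 14 * (b + l) ^ 2 * w ^ 2 ∧
      ∀ (s : ℕ) (Ω : Type) [Fintype Ω] (p : Ω → ℝ) (D : Ω → PairADS k u w s),
        (N ^ 2 ≤ 2 ^ l ∨ ∀ ω i j F F', (D ω).addr i j F = (D ω).addr i j F') →
        SolvesPairA b N p D → N ^ 2 ≤ 10 ^ 20 * (b + l) ^ 2 * w ^ 3 * s :=
  pair_ad coreThm adThm2 N w b l hw hb

end Pool.Agent.Results.MP_f326ae_lc.AdaptiveJointProbe
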